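import Pool.Agent.H37.CNJ.Stmts

/-!
Board `cnj`, row UT4: unitriangular `4 × 4` matrices
-/

set_option autoImplicit false

namespace Pool.CND

open Finset
open scoped Matrix

namespace UT4aux

variable {F : Type} [Field F]

/-- the unitriangular matrix with given entries -/
def M6 (a b c d e f : F) : Matrix (Fin 4) (Fin 4) F :=
  !![1, a, b, c; 0, 1, d, e; 0, 0, 1, f; 0, 0, 0, 1]

theorem M6_det (a b c d e f : F) : (M6 a b c d e f).det = 1 := by
  rw [Matrix.det_of_isUpperTriangular, Fin.prod_univ_four]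
  · simp [M6]
  · intro i j hij
    fin_cases i <;> fin_cases j <;> first | rfl | exact absurd hij (by decide)

variable (S : Subgroup (Matrix.GeneralLinearGroup (Fin 4) F))
  (hS : ∀ g, g ∈ S ↔ (∀ i j, j < i → g.1 i j = 0) ∧ ∀ i, g.1 i i = 1)

/-- the element with given entries -/
noncomputable def mk (a b c d e f : F) : S :=
  ⟨Matrix.GeneralLinearGroup.mkOfDetNeZero (M6 a b c d e f) (by rw [M6_det]; exact one_ne_zero),
    (hS _).2 ⟨by
      intro i j hij
      change M6 a b c d e f i j = 0
      fin_cases i <;> fin_cases j <;> first | rfl | exact absurd hij (by decide), by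
      intro i
      change M6 a b c d e f i i = 1
      fin_cases i <;> rfl⟩⟩

/-- entries -/
def en (i j : Fin 4) (s : S) : F := (s : Matrix.GeneralLinearGroup (Fin 4) F).1 i j

include hS in
theorem en_zero (s : S) (i j : Fin 4) (h : j < i) : en S i j s = 0 := ((hS s).1 s.2).1 i j h

include hS in
theorem en_one (s : S) (i : Fin 4) : en S i i s = 1 := ((hS s).1 s.2).2 i

theorem en_mul' (s t : S) (i j : Fin 4) : en S i j (s * t) =
    en S i 0 s * en S 0 j t + en S i 1 s * en S 1 j t + en S i 2 s * en S 2 j t +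
      en S i 3 s * en S 3 j t := by
  change ((s : Matrix.GeneralLinearGroup (Fin 4) F).1 *
    (t : Matrix.GeneralLinearGroup (Fin 4) F).1) i j = _
  rw [Matrix.mul_apply, Fin.sum_univ_four]
  rfl

include hS in
theorem m01 (s t : S) : en S 0 1 (s * t) = en S 0 1 t + en S 0 1 s := by
  rw [en_mul', en_one S hS, en_one S hS, en_zero S hS t 2 1 (by decide),
    en_zero S hS t 3 1 (by decide)]
  ring

include hS in
theorem m02 (s t : S) : en S 0 2 (s * t) = en S 0 2 t + en S 0 1 s * en S 1 2 t + en S 0 2 s := by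
  rw [en_mul', en_one S hS, en_one S hS, en_zero S hS t 3 2 (by decide)]
  ring

include hS in
theorem m03 (s t : S) : en S 0 3 (s * t) = en S 0 3 t + en S 0 1 s * en S 1 3 t +
    en S 0 2 s * en S 2 3 t + en S 0 3 s := by
  rw [en_mul', en_one S hS, en_one S hS]
  ring

include hS in
theorem m12 (s t : S) : en S 1 2 (s * t) = en S 1 2 t + en S 1 2 s := by
  rw [en_mul', en_one S hS s, en_one S hS t, en_zero S hS s 1 0 (by decide),
    en_zero S hS t 3 2 (by decide)]
  ring

include hS in
theorem m13 (s t : S) : en S 1 3 (s * t) = en S 1 3 t + en S 1 2 s * en S 2 3 t + en S 1 3 s := by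
  rw [en_mul', en_one S hS s, en_one S hS t, en_zero S hS s 1 0 (by decide)]
  ring

include hS in
theorem m23 (s t : S) : en S 2 3 (s * t) = en S 2 3 t + en S 2 3 s := by
  rw [en_mul', en_one S hS s, en_one S hS t, en_zero S hS s 2 0 (by decide),
    en_zero S hS s 2 1 (by decide)]
  ring

include hS in
theorem ext6 (s t : S) (h1 : en S 0 1 s = en S 0 1 t) (h2 : en S 0 2 s = en S 0 2 t)
    (h3 : en S 0 3 s = en S 0 3 t) (h4 : en S 1 2 s = en S 1 2 t) (h5 : en S 1 3 s = en S 1 3 t)
    (h6 : en S 2 3 s = en S 2 3 t) : s = t := by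
  apply Subtype.ext
  apply Units.ext
  ext i j
  change en S i j s = en S i j t
  rcases lt_trichotomy i j with h | h | h
  · fin_cases i <;> fin_cases j <;> first | assumption | exact absurd h (by decide)
  · rw [h, en_one S hS, en_one S hS]
  · rw [en_zero S hS s i j h, en_zero S hS t i j h]

end UT4aux

open UT4aux in
theorem ut4_thm (hZHF : S_ZHF) (hZUW : S_ZUW) : S_UT4 := by
  intro p f q k F _ _ _ _ _ _ S hp hp2 hq hF hS
  classical
  have hqp : q ^ 2 = p ^ (2 * f) := by rw [hq, ← pow_mul, mul_comm]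
  -- the order
  have e6 : S ≃ (F × F × F) × (F × F × F) :=
    { toFun := fun s => ((en S 0 1 s, en S 0 2 s, en S 0 3 s), (en S 1 2 s, en S 1 3 s, en S 2 3 s))
      invFun := fun x => mk S hS x.1.1 x.1.2.1 x.1.2.2 x.2.1 x.2.2.1 x.2.2.2
      left_inv := fun s => ext6 S hS _ _ rfl rfl rfl rfl rfl rfl
      right_inv := fun x => rfl }
  have hcard : Nat.card S = p ^ (6 * f) := by
    rw [Nat.card_congr e6, Nat.card_prod, Nat.card_prod, Nat.card_prod, hF, hq]
    ring
  have hpg : ∃ n : ℕ, Nat.card S = p ^ n := ⟨_, hcard⟩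
  have e1 : ∀ i j : Fin 4, i < j → en S i j 1 = 0 := by
    intro i j hij
    change (1 : Matrix (Fin 4) (Fin 4) F) i j = 0
    exact Matrix.one_apply_ne hij.ne
  -- lower bound
  have hlow : q ^ 2 ∣ NG k S := by
    have h := hZHF p 2 1 k F S (fun a c => mk S hS 0 (a 0) (c 0) 0 (a 1) 0)
      (fun g => !![-en S 2 3 g, en S 0 1 g]) hp (by norm_num) le_rfl hpg ?_ ?_ ?_ ?_ ?_
    · have hg : Nat.gcd 2 p = 1 := by
        rw [← Nat.coprime_iff_gcd_eq_one, Nat.coprime_primes Nat.prime_two hp]
        exact hp2.symm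
      rwa [hg, one_mul, hF] at h
    · intro a a' c c'
      apply ext6 S hS
      · rw [m01 S hS]; change (0 : F) = 0 + 0; ring
      · rw [m02 S hS]; change a 0 + a' 0 = a' 0 + 0 * 0 + a 0; ring
      · rw [m03 S hS]; change c 0 + c' 0 = c' 0 + 0 * a' 1 + a 0 * 0 + c 0; ring
      · rw [m12 S hS]; change (0 : F) = 0 + 0; ring
      · rw [m13 S hS]; change a 1 + a' 1 = a' 1 + 0 * 0 + a 1; ring
      · rw [m23 S hS]; change (0 : F) = 0 + 0; ring
    · intro a c h
      have h1 := congrArg (en S 0 2) h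
      have h2 := congrArg (en S 1 3) h
      have h3 := congrArg (en S 0 3) h
      rw [e1 _ _ (by decide)] at h1 h2 h3
      refine ⟨?_, ?_⟩
      · funext i
        fin_cases i
        · exact h1
        · exact h2
      · funext i
        fin_cases i
        exact h3
    · intro g h
      ext i j
      fin_cases i
      fin_cases j
      · change -en S 2 3 (g * h) = -en S 2 3 g + -en S 2 3 h
        rw [m23 S hS]; ring
      · change en S 0 1 (g * h) = en S 0 1 g + en S 0 1 h
        rw [m01 S hS]; ring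
    · intro m
      refine ⟨mk S hS (m 0 1) 0 0 0 0 (-m 0 0), ?_⟩
      ext i j
      fin_cases i
      fin_cases j
      · change - -m 0 0 = m 0 0
        ring
      · rfl
    · intro g a c
      rw [mul_inv_eq_iff_eq_mul]
      have hv : ((!![-en S 2 3 g, en S 0 1 g] : Matrix (Fin 1) (Fin 2) F) *ᵥ a) 0 =
          -en S 2 3 g * a 0 + en S 0 1 g * a 1 := by
        simp [Matrix.mulVec, dotProduct, Fin.sum_univ_two]
      apply ext6 S hS
      · rw [m01 S hS, m01 S hS]; change (0 : F) + en S 0 1 g = en S 0 1 g + 0; ring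
      · rw [m02 S hS, m02 S hS]
        change a 0 + en S 0 1 g * 0 + en S 0 2 g = en S 0 2 g + 0 * en S 1 2 g + a 0
        ring
      · rw [m03 S hS, m03 S hS]
        change c 0 + en S 0 1 g * a 1 + en S 0 2 g * 0 + en S 0 3 g =
          en S 0 3 g + 0 * en S 1 3 g + a 0 * en S 2 3 g +
            (c 0 + ((!![-en S 2 3 g, en S 0 1 g] : Matrix (Fin 1) (Fin 2) F) *ᵥ a) 0)
        rw [hv]
        ring
      · rw [m12 S hS, m12 S hS]; change (0 : F) + en S 1 2 g = en S 1 2 g + 0; ring
      · rw [m13 S hS, m13 S hS]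
        change a 1 + en S 1 2 g * 0 + en S 1 3 g = en S 1 3 g + 0 * en S 2 3 g + a 1
        ring
      · rw [m23 S hS, m23 S hS]; change (0 : F) + en S 2 3 g = en S 2 3 g + 0; ring
  -- upper bound
  have hupp : NG k S ∣ q ^ 2 := by
    rw [hqp]
    refine (hZUW p (2 * f) k S hp hpg ?_).2
    intro z hz hzp hz1
    have hc := fun s : S => (Subgroup.mem_center_iff.1 hz) s
    have z01 : en S 0 1 z = 0 := by
      have h := congrArg (en S 0 2) (hc (mk S hS 0 0 0 1 0 0))
      rw [m02 S hS, m02 S hS] at h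
      change en S 0 2 z + 0 * en S 1 2 z + 0 = 0 + en S 0 1 z * 1 + en S 0 2 z at h
      linear_combination -h
    have z12 : en S 1 2 z = 0 := by
      have h := congrArg (en S 0 2) (hc (mk S hS 1 0 0 0 0 0))
      rw [m02 S hS, m02 S hS] at h
      change en S 0 2 z + 1 * en S 1 2 z + 0 = 0 + en S 0 1 z * 0 + en S 0 2 z at h
      linear_combination h
    have z23 : en S 2 3 z = 0 := by
      have h := congrArg (en S 1 3) (hc (mk S hS 0 0 0 1 0 0))
      rw [m13 S hS, m13 S hS] at h
      change en S 1 3 z + 1 * en S 2 3 z + 0 = 0 + en S 1 2 z * 0 + en S 1 3 z at h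
      linear_combination h
    have z02 : en S 0 2 z = 0 := by
      have h := congrArg (en S 0 3) (hc (mk S hS 0 0 0 0 0 1))
      rw [m03 S hS, m03 S hS] at h
      change en S 0 3 z + 0 * en S 1 3 z + 0 * en S 2 3 z + 0 =
        0 + en S 0 1 z * 0 + en S 0 2 z * 1 + en S 0 3 z at h
      linear_combination -h
    have z13 : en S 1 3 z = 0 := by
      have h := congrArg (en S 0 3) (hc (mk S hS 1 0 0 0 0 0))
      rw [m03 S hS, m03 S hS] at h
      change en S 0 3 z + 1 * en S 1 3 z + 0 * en S 2 3 z + 0 =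
        0 + en S 0 1 z * 0 + en S 0 2 z * 0 + en S 0 3 z at h
      linear_combination h
    have z03 : en S 0 3 z ≠ 0 := by
      intro h0
      apply hz1
      apply ext6 S hS
      · rw [z01, e1 _ _ (by decide)]
      · rw [z02, e1 _ _ (by decide)]
      · rw [h0, e1 _ _ (by decide)]
      · rw [z12, e1 _ _ (by decide)]
      · rw [z13, e1 _ _ (by decide)]
      · rw [z23, e1 _ _ (by decide)]
    have inv01 : ∀ s : S, en S 0 1 s⁻¹ = -en S 0 1 s := by
      intro s
      have h := m01 S hS s s⁻¹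
      rw [mul_inv_cancel, e1 _ _ (by decide)] at h
      linear_combination -h
    let H : Subgroup S :=
      { carrier := {s | en S 0 1 s = 0 ∧ en S 0 2 s = 0}
        one_mem' := ⟨e1 _ _ (by decide), e1 _ _ (by decide)⟩
        mul_mem' := by
          rintro a b ⟨ha1, ha2⟩ ⟨hb1, hb2⟩
          refine ⟨?_, ?_⟩
          · rw [m01 S hS, ha1, hb1, add_zero]
          · rw [m02 S hS, ha1, ha2, hb2]; ring
        inv_mem' := by
          rintro a ⟨ha1, ha2⟩
          refine ⟨by rw [inv01, ha1, neg_zero], ?_⟩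
          have h := m02 S hS a a⁻¹
          rw [mul_inv_cancel, e1 _ _ (by decide), ha1, ha2] at h
          linear_combination -h }
    have hH : ∀ s, s ∈ H ↔ en S 0 1 s = 0 ∧ en S 0 2 s = 0 := fun s => Iff.rfl
    have hmul : ∀ a ∈ H, ∀ b : S, en S 0 3 (a * b) = en S 0 3 b + en S 0 3 a := by
      rintro a ⟨ha1, ha2⟩ b
      rw [m03 S hS, ha1, ha2]; ring
    have hinv : ∀ a ∈ H, en S 0 3 a⁻¹ = -en S 0 3 a := by
      intro a ha
      have h := hmul a ha a⁻¹
      rw [mul_inv_cancel, e1 _ _ (by decide)] at h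
      linear_combination -h
    let H₀ : Subgroup S :=
      { carrier := {s | s ∈ H ∧ en S 0 3 s = 0}
        one_mem' := ⟨H.one_mem, e1 _ _ (by decide)⟩
        mul_mem' := by
          rintro a b ⟨ha1, ha2⟩ ⟨hb1, hb2⟩
          exact ⟨H.mul_mem ha1 hb1, by rw [hmul a ha1, ha2, hb2, add_zero]⟩
        inv_mem' := by
          rintro a ⟨ha1, ha2⟩
          exact ⟨H.inv_mem ha1, by rw [hinv a ha1, ha2, neg_zero]⟩ }
    refine ⟨H, ⟨z01, z02⟩, ⟨H₀, fun x hx => hx.1, ?_, fun h => z03 h.2, Or.inl ?_⟩, ?_⟩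
    · intro h hh x hx
      refine ⟨H.mul_mem (H.mul_mem hh hx.1) (H.inv_mem hh), ?_⟩
      rw [hmul _ (H.mul_mem hh hx.1), hmul _ hh, hinv _ hh, hx.2]
      ring
    · intro x hx h hh
      have h1 : h * x * h⁻¹ ∈ H := H.mul_mem (H.mul_mem hh hx) (H.inv_mem hh)
      refine ⟨H.mul_mem h1 (H.inv_mem hx), ?_⟩
      rw [hmul _ h1, hmul _ (H.mul_mem hh hx), hmul _ hh, hinv _ hh, hinv _ hx]
      ring
    · have hle : H.index ≤ Nat.card (F × F) := by
        have hφ : ∀ a b : S, (QuotientGroup.leftRel H) a b →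
            (en S 0 1 a⁻¹, en S 0 2 a⁻¹) = (en S 0 1 b⁻¹, en S 0 2 b⁻¹) := by
          intro a b hab
          rw [QuotientGroup.leftRel_apply] at hab
          obtain ⟨h1, h2⟩ := hab
          have e : a⁻¹ = (a⁻¹ * b) * b⁻¹ := by group
          have h3 := congrArg (en S 0 1) e
          have h4 := congrArg (en S 0 2) e
          rw [m01 S hS, h1, add_zero] at h3
          rw [m02 S hS, h1, h2, zero_mul, add_zero, add_zero] at h4
          rw [h3, h4]
        refine Nat.card_le_card_of_injective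
          (fun x : S ⧸ H => Quotient.lift (s := QuotientGroup.leftRel H)
            (fun a : S => ((en S 0 1 a⁻¹, en S 0 2 a⁻¹) : F × F)) hφ x) ?_
        intro x y hxy
        induction x using QuotientGroup.induction_on with
        | H a =>
          induction y using QuotientGroup.induction_on with
          | H b =>
            have hxy' : ((en S 0 1 a⁻¹, en S 0 2 a⁻¹) : F × F) = (en S 0 1 b⁻¹, en S 0 2 b⁻¹) := hxy
            obtain ⟨h1, h2⟩ := Prod.mk.inj hxy'
            apply QuotientGroup.eq.2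
            have e : a⁻¹ = (a⁻¹ * b) * b⁻¹ := by group
            have h3 := congrArg (en S 0 1) e
            have h4 := congrArg (en S 0 2) e
            rw [m01 S hS, h1] at h3
            have h5 : en S 0 1 (a⁻¹ * b) = 0 := by linear_combination -h3
            rw [m02 S hS, h2, h5] at h4
            exact ⟨h5, by linear_combination -h4⟩
      have hdvd : H.index ∣ Nat.card S := Subgroup.index_dvd_card H
      rw [hcard] at hdvd
      obtain ⟨j, -, hj⟩ := (Nat.dvd_prime_pow hp).1 hdvd
      rw [hj]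
      apply pow_dvd_pow
      rw [hj, Nat.card_prod, hF, ← pow_two, hqp] at hle
      exact (Nat.pow_le_pow_iff_right hp.one_lt).1 hle
  exact Nat.dvd_antisymm hupp hlow

end Pool.CND
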